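import Pool.Agent.H.MP_70614a_al.B
import Pool.Agent.H.MP_70614a_al.D

namespace Pool.Agent.Results.MP_70614a_al.No

open CategoryTheory CategoryTheory.Abelian

noncomputable instance subDec (G : Type) [Group G] : DecidableEq (Subgroup G) := Classical.decEq _

open Classical in
noncomputable instance subLF (G : Type) [Group G] [Finite G] : LocallyFiniteOrder (Subgroup G) :=
  letI := Fintype.ofFinite (Subgroup G)
  Fintype.toLocallyFiniteOrder

/-- the one-dimensional module concentrated at the point x, underlying space the rationals -/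
def Sim {P : Type} (_x : P) : Type := ℚ

instance {P : Type} (x : P) : Field (Sim x) := inferInstanceAs (Field ℚ)

/-- an element f of the incidence algebra acts on Sim x by the scalar f x x -/
instance {P : Type} [PartialOrder P] [LocallyFiniteOrder P] [DecidableEq P] (x : P) :
    Module (IncidenceAlgebra ℚ P) (Sim x) where
  smul f q := (f x x * (show ℚ from q) : ℚ)
  one_smul q := by
    change ((1 : IncidenceAlgebra ℚ P) x x * (show ℚ from q) : ℚ) = q
    simp
  mul_smul f g q := by
    change ((f * g) x x * (show ℚ from q) : ℚ) = f x x * (g x x * (show ℚ from q))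
    simp [mul_assoc]
  smul_zero f := mul_zero (f x x)
  smul_add f := mul_add (f x x)
  add_smul f g := add_mul (f x x) (g x x)
  zero_smul q := zero_mul (show ℚ from q)

/-- the simple left module at the subgroup H over the incidence algebra of the subgroup lattice -/
noncomputable def S {G : Type} [Group G] [Finite G] (H : Subgroup G) :
    ModuleCat.{0} (IncidenceAlgebra ℚ (Subgroup G)) :=
  ModuleCat.of _ (Sim H)

/-- the Frattini subgroup of H, as a subgroup of G -/
def Phi {G : Type} [Group G] (H : Subgroup G) : Subgroup G := (frattini H).map H.subtype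

/-- global dimension: supremum of the projective dimensions of all left modules -/
noncomputable def gldim (R : Type) [Ring R] : WithBot ℕ∞ :=
  ⨆ M : ModuleCat.{0} R, projectiveDimension M

open Pool.Agent.H.MP_70614a_al

section

variable {P : Type} [PartialOrder P] [LocallyFiniteOrder P] [DecidableEq P] [Fintype P]

noncomputable def isoS (x : P) : Th ℚ {x} Set.ordConnected_singleton ≃ₗ[IA P] Sim x where
  toFun v := v.1 x
  map_add' _ _ := rfl
  map_smul' f v := by
    change (f • v).1 x = f x x * v.1 x
    rw [smul_val _ _ (Set.mem_singleton x), Finset.sum_eq_single x, smul_eq_mul]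
    · intro y _ hy
      rw [v.2 y hy, smul_zero]
    · simp
  invFun q := ⟨fun y => if y = x then (show ℚ from q) else 0, fun _ hy => if_neg hy⟩
  left_inv v := Th.ext fun y hy => by
    rw [Set.mem_singleton_iff] at hy
    subst hy
    exact if_pos rfl
  right_inv _ := if_pos rfl

noncomputable def vd (K : P) : VD P K :=
  Thin.vd.{0} (thin P ℚ) (ModuleCat.of _ (Sim K)) K fun x hx f => by
    ext1
    refine hom_zero x (fun s => ?_) _
    change (E x x K K * (show ℚ from s) : ℚ) = 0
    rw [E_apply, if_neg fun h => hx h.1.symm, zero_mul]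

theorem vd_iff (K x : P) (n : ℕ) : (vd K).V {x} n ↔
    ∀ e : Ext.{0} (ModuleCat.of (IA P) (Sim x)) (ModuleCat.of (IA P) (Sim K)) n, e = 0 := by
  let i := (isoS x).toModuleIso
  constructor
  · intro h e
    rw [← e.mk₀_id_comp, ← i.inv_hom_id, ← Ext.mk₀_comp_mk₀_assoc,
      show (Ext.mk₀ i.hom).comp e (zero_add n) = 0 from h _ _, Ext.comp_zero]
  · intro h _ e
    rw [← e.mk₀_id_comp]
    erw [← i.hom_inv_id]
    erw [← Ext.mk₀_comp_mk₀_assoc]
    erw [h ((Ext.mk₀ i.inv).comp e (zero_add n)), Ext.comp_zero]

end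

theorem result : ∃ (G : Type) (_ : Group G) (_ : Finite G) (m : ℕ),
    (m : WithBot ℕ∞) < gldim (IncidenceAlgebra ℚ (Subgroup G)) ∧
    ∀ (H : Subgroup G) (n : ℕ), Nontrivial (Ext.{0} (S H) (S (Phi H)) n) → n ≤ m := by
  let _ := Fintype.ofFinite (Subgroup G)
  refine ⟨G, inferInstance, inferInstance, 3, ?_, ?_⟩
  · refine lt_of_lt_of_le (b := ((4 : ℕ) : WithBot ℕ∞)) (by norm_cast)
      (le_trans ?_ (le_iSup _ (S (⊤ : Subgroup G))))
    rw [projectiveDimension_ge_iff]
    intro h
    have h1 := (vd_iff _ _ _).1 (nonvanish (vd (I R2)) ((vd_iff _ _ _).2 fun e =>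
      Ext.eq_zero_of_hasProjectiveDimensionLT (X := S (⊤ : Subgroup G)) e 4 le_rfl))
    have h2 := (Ext.mk₀_eq_zero_iff _).1 (h1 (Ext.mk₀ (𝟙 _)))
    have h3 : (1 : Sim (I R2)) = 0 := congrArg (fun φ => ModuleCat.Hom.hom φ (1 : Sim (I R2))) h2
    exact one_ne_zero h3
  · intro H n hn
    by_contra h
    have h1 := (vd_iff _ _ _).1 (vanish H _ rfl (vd (Phi H)) n (by omega))
    obtain ⟨a, b, hab⟩ := hn
    exact hab ((h1 a).trans (h1 b).symm)

end Pool.Agent.Results.MP_70614a_al.No
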